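import Pool.Agent.Lib.RegSph.Defs

set_option autoImplicit false

namespace Pool.Agent.Lib.RegSph

open Finset Pool.Agent.Lib.MP_2f27c1_co

variable {V : Type*} [Fintype V]

/-- PROOF. Put `T w :⇔ dist u w + i ≤ dist v w`. Apply `hE v r S B` to `S` and to the set `B` of all
`w ∈ bl v r`, `w ∉ S`, adjacent to some `z ∈ S`. For such `w`, `z`: not `T w`, `T z`, and
* `dist v z = dist v w + 1`: then `w` is a `v`-parent of `z`, so `z ∈ mixb v (¬ T) r`, and `w` is one of
  at most `D` neighbours of such a `z`;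
* `dist v z = dist v w`: then `dist u z + i ≤ dist v w < dist u w + i`, so `dist u w = dist u z + 1`,
  `z` is a `u`-parent of `w` and `w ∈ mixb u T r` (`dist u w ≤ dist v z - i + 1 ≤ r`);
* `dist v w = dist v z + 1`: then `dist u w + i ≤ dist u z + 1 + i ≤ dist v w`, `T w`, impossible. -/
theorem bdry {G : SimpleGraph V} (hc : G.Connected) {D : ℕ} (hD : DegLe G D) {h : ℝ}
    (hE : Expd G h) (v u : V) (i r : ℕ) (hi : 1 ≤ i) (S : Finset V)
    (hS : ∀ w, w ∈ S ↔ w ∈ bl G v r ∧ G.dist u w + i ≤ G.dist v w)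
    (h2 : 2 * S.card ≤ (bl G v r).card) :
    h * (S.card : ℝ) ≤
      D * ((mixb G v (fun w => ¬ G.dist u w + i ≤ G.dist v w) r).card : ℝ) +
        ((mixb G u (fun w => G.dist u w + i ≤ G.dist v w) r).card : ℝ) := by
  classical
  set B : Finset V := (bl G v r).filter (fun w => w ∉ S ∧ ∃ z ∈ S, G.Adj z w) with hB
  have h1 := hE v r S B (fun w hw => ((hS w).1 hw).1) h2 (by intro w; simp [hB, mem_filter])
  have hsub : B ⊆ (mixb G v (fun w => ¬ G.dist u w + i ≤ G.dist v w) r).biUnion
      (fun z => univ.filter (fun w => G.Adj z w)) ∪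
      mixb G u (fun w => G.dist u w + i ≤ G.dist v w) r := by
    intro w hw
    rw [hB, mem_filter] at hw
    obtain ⟨hwr, hwS, z, hzS, hzw⟩ := hw
    have hT : ¬ G.dist u w + i ≤ G.dist v w := fun hcon => hwS ((hS w).2 ⟨hwr, hcon⟩)
    obtain ⟨hzr, hTz⟩ := (hS z).1 hzS
    rw [mem_bl] at hwr hzr
    have d1 : G.dist z w = 1 := SimpleGraph.dist_eq_one_iff_adj.mpr hzw
    have d2 : G.dist w z = 1 := SimpleGraph.dist_eq_one_iff_adj.mpr hzw.symm
    have t1 := hc.dist_triangle (u := v) (v := z) (w := w)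
    have t2 := hc.dist_triangle (u := v) (v := w) (w := z)
    have t3 := hc.dist_triangle (u := u) (v := z) (w := w)
    have t4 := hc.dist_triangle (u := u) (v := w) (w := z)
    rw [mem_union]
    by_cases c1 : G.dist v z = G.dist v w + 1
    · left
      rw [mem_biUnion]
      refine ⟨z, ?_, ?_⟩
      · rw [mem_mixb]
        refine ⟨hzr, fun hcon => hcon hTz, w, ?_, hT⟩
        rw [mem_pars]
        exact ⟨hzw.symm, c1⟩
      · rw [mem_filter]
        exact ⟨mem_univ _, hzw⟩
    · right
      have c2 : G.dist v z = G.dist v w := by omega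
      have c3 : G.dist u w = G.dist u z + 1 := by omega
      rw [mem_mixb]
      refine ⟨by omega, hT, z, ?_, hTz⟩
      rw [mem_pars]
      exact ⟨hzw, c3⟩
  have h3 := (card_le_card hsub).trans (card_union_le _ _)
  have h4 : ((mixb G v (fun w => ¬ G.dist u w + i ≤ G.dist v w) r).biUnion
      (fun z => univ.filter (fun w => G.Adj z w))).card ≤
      (mixb G v (fun w => ¬ G.dist u w + i ≤ G.dist v w) r).card * D := by
    refine card_biUnion_le_card_mul _ _ _ fun z _ => ?_
    exact hD z _ fun w hw => (mem_filter.1 hw).2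
  have h5 : B.card ≤ (mixb G v (fun w => ¬ G.dist u w + i ≤ G.dist v w) r).card * D +
      (mixb G u (fun w => G.dist u w + i ≤ G.dist v w) r).card := by omega
  have h6 : (B.card : ℝ) ≤
      ((mixb G v (fun w => ¬ G.dist u w + i ≤ G.dist v w) r).card : ℝ) * D +
      ((mixb G u (fun w => G.dist u w + i ≤ G.dist v w) r).card : ℝ) := by exact_mod_cast h5
  linarith

end Pool.Agent.Lib.RegSph
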