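import Pool.Agent.Lib.RegSph.Defs

set_option autoImplicit false

namespace Pool.Agent.Lib.RegSph

open Finset Pool.Agent.Lib.MP_2f27c1_co

variable {V : Type*} [Fintype V]

theorem growth_pow {G : SimpleGraph V} (hc : G.Connected) {h : ℝ} (hE : Expd G h) (x : V) (R : ℕ)
    (hh : 0 < h) (h2 : 2 * (bl G x R).card ≤ Fintype.card V) (r j : ℕ) (hrj : r + j ≤ R) :
    (1 + h) ^ j * ((bl G x r).card : ℝ) ≤ ((bl G x (r + j)).card : ℝ) := by
  induction j with
  | zero => simp
  | succ j ih =>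
    have h1 := ih (by omega)
    have h3 : (bl G x (r + j)).card ≤ (bl G x R).card := card_le_card (bl_mono G x (by omega))
    have h4 := bl_growth hE x (r + j) (by omega) hc
    calc (1 + h) ^ (j + 1) * ((bl G x r).card : ℝ)
        = (1 + h) * ((1 + h) ^ j * ((bl G x r).card : ℝ)) := by ring
      _ ≤ (1 + h) * ((bl G x (r + j)).card : ℝ) := by
          refine mul_le_mul_of_nonneg_left h1 ?_
          linarith
      _ ≤ _ := h4

theorem half {G : SimpleGraph V} (hc : G.Connected) {h K : ℝ} (hh : 0 < h) (hE : Expd G h) (R : ℕ)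
    (v u : V) (h2 : 2 * (bl G v R).card ≤ Fintype.card V)
    (hK : ∀ r, r ≤ R → ((bl G u r).card : ℝ) ≤ K * ((bl G v r).card : ℝ))
    (i r : ℕ) (hiK : 2 * K ≤ (1 + h) ^ i) (hir : i ≤ r) (hrR : r ≤ R) (S : Finset V)
    (hS : ∀ w, w ∈ S ↔ w ∈ bl G v r ∧ G.dist u w + i ≤ G.dist v w) :
    2 * S.card ≤ (bl G v r).card := by
  have h1 : S ⊆ bl G u (r - i) := by
    intro w hw
    have h3 := (hS w).1 hw
    rw [mem_bl] at *
    omega
  have h3 : (S.card : ℝ) ≤ ((bl G u (r - i)).card : ℝ) := by exact_mod_cast card_le_card h1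
  have h4 := hK (r - i) (by omega)
  have h5 := growth_pow hc hE v R hh h2 (r - i) i (by omega)
  have h6 : r - i + i = r := by omega
  rw [h6] at h5
  have h7 : (0 : ℝ) ≤ ((bl G v (r - i)).card : ℝ) := Nat.cast_nonneg _
  have h8 : 2 * K * ((bl G v (r - i)).card : ℝ) ≤ (1 + h) ^ i * ((bl G v (r - i)).card : ℝ) :=
    mul_le_mul_of_nonneg_right hiK h7
  have h9 : 2 * (S.card : ℝ) ≤ ((bl G v r).card : ℝ) := by nlinarith
  exact_mod_cast h9

theorem compare {G : SimpleGraph V} (hc : G.Connected) {D : ℕ} (hD : DegLe G D) (v u : V) (i r : ℕ)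
    (hvu : G.dist v u ≤ i) :
    ((bl G u r).card : ℝ) ≤ ((D : ℝ) + 1) ^ i * ((bl G v r).card : ℝ) := by
  have h1 : bl G u r ⊆ bl G v (r + i) := bl_subset_bl hc hvu (by omega)
  have h2 : ((bl G u r).card : ℝ) ≤ ((bl G v (r + i)).card : ℝ) := by exact_mod_cast card_le_card h1
  refine h2.trans ?_
  clear h1 h2 hvu
  induction i with
  | zero => simp
  | succ i ih =>
    have h3 := bl_succ_le hD hc v (r + i)
    have h4 : ((bl G v (r + (i + 1))).card : ℝ) ≤ ((D : ℝ) + 1) * ((bl G v (r + i)).card : ℝ) := by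
      exact_mod_cast h3
    refine h4.trans ?_
    rw [pow_succ', mul_assoc]
    exact mul_le_mul_of_nonneg_left ih (by positivity)

end Pool.Agent.Lib.RegSph
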