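import Pool.Agent.Lib.RegSph.Defs

set_option autoImplicit false

namespace Pool.Agent.Lib.RegSph

open Finset Pool.Agent.Lib.MP_2f27c1_co

variable {V : Type*} [Fintype V]

private theorem growth_powB {G : SimpleGraph V} (hc : G.Connected) {h : ℝ} (hh : 0 < h)
    (hE : Expd G h) (x : V) (R : ℕ)
    (h2 : 2 * (bl G x R).card ≤ Fintype.card V) (r j : ℕ) (hrj : r + j ≤ R) :
    (1 + h) ^ j * ((bl G x r).card : ℝ) ≤ ((bl G x (r + j)).card : ℝ) := by
  induction j with
  | zero => simp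
  | succ j ih =>
    have h1 := ih (by omega)
    have h3 : (bl G x (r + j)).card ≤ (bl G x R).card := card_le_card (bl_mono G x (by omega))
    have h4 := bl_growth hE x (r + j) (by omega) hc
    rw [pow_succ, ← add_assoc]
    have h5 : (0 : ℝ) ≤ 1 + h := by linarith
    calc (1 + h) ^ j * (1 + h) * ((bl G x r).card : ℝ)
        = (1 + h) * ((1 + h) ^ j * ((bl G x r).card : ℝ)) := by ring
      _ ≤ (1 + h) * ((bl G x (r + j)).card : ℝ) := mul_le_mul_of_nonneg_left h1 h5
      _ ≤ _ := h4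

/-- PROOF. Every `w ∈ bl v r` with `dist v w ≥ i` has some `u` with `dist v u = i` on a geodesic from
`v` to `w` (`exists_mid` with `p = i`, `q = dist v w - i`; the triangle inequality gives equality), so
`w ∈ S u`. So `(bl v r).card - (bl v (i-1)).card ≤ ∑_u (S u).card`, and
`2 * (bl v (i-1)).card ≤ (1+h)^i * (bl v (i-1)).card ≤ (bl v (2 i - 1)).card ≤ (bl v r).card`. -/
theorem cover {G : SimpleGraph V} (hc : G.Connected) {h : ℝ} (hh : 0 < h) (hE : Expd G h)
    (v : V) (R : ℕ) (h2 : 2 * (bl G v R).card ≤ Fintype.card V) (i r : ℕ) (hi : 1 ≤ i)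
    (h2i : 2 ≤ (1 + h) ^ i) (hir : 2 * i ≤ r) (hrR : r ≤ R) (S : V → Finset V)
    (hS : ∀ u w, w ∈ S u ↔ w ∈ bl G v r ∧ G.dist u w + i ≤ G.dist v w) :
    ((bl G v r).card : ℝ) ≤ 2 * ∑ u ∈ bl G v i, ((S u).card : ℝ) := by
  classical
  have hsub : bl G v r ⊆ bl G v (i - 1) ∪ (bl G v i).biUnion S := by
    intro w hw
    rw [mem_union]
    by_cases hwi : G.dist v w ≤ i - 1
    · exact Or.inl (mem_bl.mpr hwi)
    · right
      obtain ⟨u, hu1, hu2⟩ := exists_mid hc v w i (G.dist v w - i) (by omega)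
      rw [mem_biUnion]
      refine ⟨u, mem_bl.mpr hu1, (hS u w).mpr ⟨hw, by omega⟩⟩
  have h3 := card_le_card hsub
  have h4 := card_union_le (bl G v (i - 1)) ((bl G v i).biUnion S)
  have h5 : ((bl G v i).biUnion S).card ≤ ∑ u ∈ bl G v i, (S u).card := card_biUnion_le
  have h6 : ((bl G v r).card : ℝ) ≤ ((bl G v (i - 1)).card : ℝ) +
      ∑ u ∈ bl G v i, ((S u).card : ℝ) := by
    have : (bl G v r).card ≤ (bl G v (i - 1)).card + ∑ u ∈ bl G v i, (S u).card := by omega
    exact_mod_cast this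
  have h7 := growth_powB hc hh hE v R h2 (i - 1) i (by omega)
  have h8 : ((bl G v (i - 1 + i)).card : ℝ) ≤ ((bl G v r).card : ℝ) := by
    exact_mod_cast card_le_card (bl_mono G v (by omega))
  have h9 : 2 * ((bl G v (i - 1)).card : ℝ) ≤ (1 + h) ^ i * ((bl G v (i - 1)).card : ℝ) :=
    mul_le_mul_of_nonneg_right h2i (Nat.cast_nonneg _)
  linarith

end Pool.Agent.Lib.RegSph
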