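import Pool.Agent.Lib.MP_2f27c1_co.Basic

set_option autoImplicit false

/-!
# MP_2f27c1_co: regular spheres (definitions)

`kids G x w`: neighbours of `w` which are farther from `x`; `pars G x w`: neighbours of `w` which are
nearer to `x`.
-/

namespace Pool.Agent.Lib.RegSph

open Finset Pool.Agent.Lib.MP_2f27c1_co

variable {V : Type*} [Fintype V]

/-- The neighbours of `w` which are farther from `x` than `w`. -/
noncomputable def kids (G : SimpleGraph V) (x w : V) : Finset V := by
  classical exact univ.filter (fun z => G.Adj w z ∧ G.dist x z = G.dist x w + 1)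

/-- The neighbours of `w` which are nearer to `x` than `w`. -/
noncomputable def pars (G : SimpleGraph V) (x w : V) : Finset V := by
  classical exact univ.filter (fun z => G.Adj z w ∧ G.dist x w = G.dist x z + 1)

/-- The graph is `C`-regular at `x` up to the radius `R`. -/
def Reg (G : SimpleGraph V) (x : V) (R : ℕ) (C : ℝ) : Prop :=
  ∃ μ : V → ℝ, (∀ w, 0 ≤ μ w) ∧ μ x ≤ 1 ∧
    (∀ w, G.dist x w < R → ∑ z ∈ kids G x w, μ z / ((pars G x z).card : ℝ) ≤ μ w) ∧
    (∀ w, R < 2 * G.dist x w → G.dist x w ≤ R →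
      1 ≤ C * ((bl G x (G.dist x w)).card : ℝ) * μ w)

/-- The points `w` of the level `s` (around `x`) which are not in `P` but have a parent in `P`. -/
noncomputable def mix (G : SimpleGraph V) (x : V) (P : V → Prop) (s : ℕ) : Finset V := by
  classical exact univ.filter (fun w => G.dist x w = s ∧ ¬ P w ∧ ∃ z ∈ pars G x w, P z)

/-- The points `w` of the ball `bl G x r` which are not in `P` but have a parent in `P`. -/
noncomputable def mixb (G : SimpleGraph V) (x : V) (P : V → Prop) (r : ℕ) : Finset V := by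
  classical exact univ.filter (fun w => G.dist x w ≤ r ∧ ¬ P w ∧ ∃ z ∈ pars G x w, P z)

theorem mem_kids {G : SimpleGraph V} {x w z : V} :
    z ∈ kids G x w ↔ G.Adj w z ∧ G.dist x z = G.dist x w + 1 := by
  classical
  simp [kids]

theorem mem_pars {G : SimpleGraph V} {x w z : V} :
    z ∈ pars G x w ↔ G.Adj z w ∧ G.dist x w = G.dist x z + 1 := by
  classical
  simp [pars]

theorem mem_mix {G : SimpleGraph V} {x : V} {P : V → Prop} {s : ℕ} {w : V} :
    w ∈ mix G x P s ↔ G.dist x w = s ∧ ¬ P w ∧ ∃ z ∈ pars G x w, P z := by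
  classical
  simp [mix]

theorem mem_mixb {G : SimpleGraph V} {x : V} {P : V → Prop} {r : ℕ} {w : V} :
    w ∈ mixb G x P r ↔ G.dist x w ≤ r ∧ ¬ P w ∧ ∃ z ∈ pars G x w, P z := by
  classical
  simp [mixb]

end Pool.Agent.Lib.RegSph
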