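import Pool.Agent.Lib.RegSph.Defs

set_option autoImplicit false

namespace Pool.Agent.Lib.RegSph

open Finset Pool.Agent.Lib.MP_2f27c1_co

variable {V : Type*} [Fintype V]

theorem pars_nonempty {G : SimpleGraph V} (hc : G.Connected) (x z : V) (s : ℕ)
    (h : G.dist x z = s + 1) : ∃ w, w ∈ pars G x z ∧ G.dist x w = s := by
  obtain ⟨w, hw1, hw2⟩ := exists_mid hc x z s 1 (by omega)
  have h3 := hc.dist_triangle (u := x) (v := w) (w := z)
  have h4 : G.dist w z = 1 := by omega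
  have h5 : G.dist x w = s := by omega
  exact ⟨w, mem_pars.2 ⟨SimpleGraph.dist_eq_one_iff_adj.1 h4, by omega⟩, h5⟩

/-- The mass of the points of `P` of the level `s`. -/
noncomputable def mass (G : SimpleGraph V) (x : V) (P : V → Prop) (μ : V → ℝ) (s : ℕ) : ℝ := by
  classical exact ∑ w ∈ univ.filter (fun w => G.dist x w = s ∧ P w), μ w

theorem leak_step {G : SimpleGraph V} (hc : G.Connected) {D : ℕ} (hD : DegLe G D) (x : V)
    (P : V → Prop) (hP : ∀ w, ∀ z ∈ pars G x w, P w → P z) (μ : V → ℝ) (h0 : ∀ w, 0 ≤ μ w)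
    (s : ℕ) (hs : ∀ w, G.dist x w = s →
      ∑ z ∈ kids G x w, μ z / ((pars G x z).card : ℝ) ≤ μ w) :
    (D : ℝ) * mass G x P μ (s + 1) + ∑ w ∈ mix G x P (s + 1), μ w
      ≤ (D : ℝ) * mass G x P μ s := by
  classical
  have hmem : ∀ t w, w ∈ univ.filter (fun w => G.dist x w = t ∧ P w) ↔ G.dist x w = t ∧ P w := by
    intro t w; simp
  have h1 : ∑ z ∈ univ.filter (fun z => G.dist x z = s + 1),
      ∑ w ∈ (pars G x z).filter P, μ z / ((pars G x z).card : ℝ) ≤ mass G x P μ s := by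
    have h2 : ∑ w ∈ univ.filter (fun w => G.dist x w = s ∧ P w),
        ∑ z ∈ kids G x w, μ z / ((pars G x z).card : ℝ) =
        ∑ z ∈ univ.filter (fun z => G.dist x z = s + 1),
          ∑ w ∈ (pars G x z).filter P, μ z / ((pars G x z).card : ℝ) := by
      apply Finset.sum_comm'
      intro w z
      simp only [mem_filter, mem_univ, true_and, mem_kids, mem_pars]
      constructor
      · rintro ⟨⟨a, b⟩, c, d⟩
        exact ⟨⟨⟨c, d⟩, b⟩, by omega⟩
      · rintro ⟨⟨⟨c, d⟩, b⟩, e⟩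
        exact ⟨⟨by omega, b⟩, c, d⟩
    rw [← h2]
    unfold mass
    apply Finset.sum_le_sum
    intro w hw
    exact hs w ((hmem s w).1 hw).1
  have hnn : ∀ z, 0 ≤ ∑ w ∈ (pars G x z).filter P, μ z / ((pars G x z).card : ℝ) := by
    intro z
    apply Finset.sum_nonneg
    intro w _
    exact div_nonneg (h0 z) (Nat.cast_nonneg _)
  have hdis : Disjoint (univ.filter (fun w => G.dist x w = s + 1 ∧ P w)) (mix G x P (s + 1)) := by
    rw [Finset.disjoint_left]
    intro w hw hw'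
    exact (mem_mix.1 hw').2.1 ((hmem _ w).1 hw).2
  have hsub : univ.filter (fun w => G.dist x w = s + 1 ∧ P w) ∪ mix G x P (s + 1) ⊆
      univ.filter (fun z => G.dist x z = s + 1) := by
    intro w hw
    rw [mem_union] at hw
    rw [mem_filter]
    refine ⟨mem_univ _, ?_⟩
    rcases hw with hw | hw
    · exact ((hmem _ w).1 hw).1
    · exact (mem_mix.1 hw).1
  have h3 := Finset.sum_le_sum_of_subset_of_nonneg hsub (f := fun z =>
    ∑ w ∈ (pars G x z).filter P, μ z / ((pars G x z).card : ℝ)) (fun z _ _ => hnn z)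
  rw [Finset.sum_union hdis] at h3
  have h4 : mass G x P μ (s + 1) ≤ ∑ z ∈ univ.filter (fun w => G.dist x w = s + 1 ∧ P w),
      ∑ w ∈ (pars G x z).filter P, μ z / ((pars G x z).card : ℝ) := by
    unfold mass
    apply Finset.sum_le_sum
    intro z hz
    obtain ⟨hz1, hz2⟩ := (hmem _ z).1 hz
    have h5 : (pars G x z).filter P = pars G x z := by
      apply Finset.filter_true_of_mem
      intro w hw
      exact hP z w hw hz2
    obtain ⟨w, hw, _⟩ := pars_nonempty hc x z s hz1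
    have h6 : (0 : ℝ) < ((pars G x z).card : ℝ) := by
      exact_mod_cast Finset.card_pos.2 ⟨w, hw⟩
    rw [h5, Finset.sum_const, nsmul_eq_mul]
    rw [mul_div_cancel₀ _ h6.ne']
  have h7 : ∑ w ∈ mix G x P (s + 1), μ w ≤ (D : ℝ) * ∑ z ∈ mix G x P (s + 1),
      ∑ w ∈ (pars G x z).filter P, μ z / ((pars G x z).card : ℝ) := by
    rw [Finset.mul_sum]
    apply Finset.sum_le_sum
    intro z hz
    obtain ⟨hz1, hz2, w, hw, hPw⟩ := mem_mix.1 hz
    have h8 : 1 ≤ ((pars G x z).filter P).card :=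
      Finset.card_pos.2 ⟨w, Finset.mem_filter.2 ⟨hw, hPw⟩⟩
    have h9 : (pars G x z).card ≤ D := hD z _ (fun w hw => (mem_pars.1 hw).1.symm)
    have h6 : (0 : ℝ) < ((pars G x z).card : ℝ) := by
      exact_mod_cast Finset.card_pos.2 ⟨w, hw⟩
    rw [Finset.sum_const, nsmul_eq_mul]
    have h8' : (1 : ℝ) ≤ (((pars G x z).filter P).card : ℝ) := by exact_mod_cast h8
    have h9' : ((pars G x z).card : ℝ) ≤ (D : ℝ) := by exact_mod_cast h9
    have h10 : μ z ≤ (D : ℝ) * (μ z / ((pars G x z).card : ℝ)) := by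
      have h11 : μ z = ((pars G x z).card : ℝ) * (μ z / ((pars G x z).card : ℝ)) := by
        field_simp
      calc μ z = ((pars G x z).card : ℝ) * (μ z / ((pars G x z).card : ℝ)) := h11
        _ ≤ (D : ℝ) * (μ z / ((pars G x z).card : ℝ)) :=
          mul_le_mul_of_nonneg_right h9' (div_nonneg (h0 z) h6.le)
    have h12 : 0 ≤ (D : ℝ) * (μ z / ((pars G x z).card : ℝ)) :=
      mul_nonneg (Nat.cast_nonneg _) (div_nonneg (h0 z) h6.le)
    nlinarith
  have hD0 : (0 : ℝ) ≤ (D : ℝ) := Nat.cast_nonneg _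
  have h13 := mul_le_mul_of_nonneg_left h4 hD0
  have h14 := mul_le_mul_of_nonneg_left h3 hD0
  have h15 := mul_le_mul_of_nonneg_left h1 hD0
  linarith [mul_add (D : ℝ) (∑ z ∈ univ.filter (fun w => G.dist x w = s + 1 ∧ P w),
      ∑ w ∈ (pars G x z).filter P, μ z / ((pars G x z).card : ℝ))
      (∑ z ∈ mix G x P (s + 1),
      ∑ w ∈ (pars G x z).filter P, μ z / ((pars G x z).card : ℝ))]

/-- PROOF. Let `M s = ∑ μ w` over the `w ∈ P` of the level `s`. For `s < R`: `M s ≥ ∑` over `w ∈ P` of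
the level `s` of `∑_{z ∈ kids w} μ z / p z` (`p z = (pars z).card`), which is (exchange the sums: `z` is
a kid of `w` iff `w` is a parent of `z`) `∑` over all `z` of the level `s + 1` of
`μ z * #(parents of z in P) / p z`. For `z ∈ P` all parents are in `P` (and there is one), so the
term is `μ z`; for `z ∈ mix (s + 1)` it is at least `μ z / D`. So `M s ≥ M (s+1) + (∑_{mix (s+1)} μ) / D`.
Sum: `∑_{s=1}^{R} ∑_{mix s} μ ≤ D * M 0 ≤ D`. For `R < 2 s` every `w ∈ mix s` has
`1 / (bl x s).card ≤ C * μ w`. -/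
theorem leak {G : SimpleGraph V} (hc : G.Connected) {D : ℕ} (hD : DegLe G D) (x : V) (R : ℕ)
    (C : ℝ) (hC : 0 < C) (hr : Reg G x R C) (P : V → Prop)
    (hP : ∀ w, ∀ z ∈ pars G x w, P w → P z) :
    ∑ s ∈ Finset.Ioc (R / 2) R, ((mix G x P s).card : ℝ) / ((bl G x s).card : ℝ) ≤ C * D := by
  classical
  obtain ⟨μ, h0, hx, hk, hl⟩ := hr
  have hD0 : (0 : ℝ) ≤ (D : ℝ) := Nat.cast_nonneg _
  have hM : ∀ n, 0 ≤ mass G x P μ n := by
    intro n
    unfold mass
    exact Finset.sum_nonneg (fun w _ => h0 w)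
  have hM0 : mass G x P μ 0 ≤ 1 := by
    unfold mass
    have h1 : univ.filter (fun w => G.dist x w = 0 ∧ P w) ⊆ {x} := by
      intro w hw
      rw [mem_filter] at hw
      rw [mem_singleton]
      exact (hc.dist_eq_zero_iff.1 hw.2.1).symm
    calc ∑ w ∈ univ.filter (fun w => G.dist x w = 0 ∧ P w), μ w ≤ ∑ w ∈ ({x} : Finset V), μ w :=
          Finset.sum_le_sum_of_subset_of_nonneg h1 (fun w _ _ => h0 w)
      _ = μ x := by simp
      _ ≤ 1 := hx
  have hsum : ∀ n, n ≤ R → ∑ s ∈ Finset.Ioc 0 n, ∑ w ∈ mix G x P s, μ w +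
      (D : ℝ) * mass G x P μ n ≤ (D : ℝ) * mass G x P μ 0 := by
    intro n
    induction n with
    | zero => intro _; simp
    | succ n ih =>
      intro hn
      rw [Finset.sum_Ioc_succ_top (Nat.zero_le n)]
      have h1 := ih (by omega)
      have h2 := leak_step hc hD x P hP μ h0 n (fun w hw => hk w (by omega))
      linarith
  have h1 : ∑ s ∈ Finset.Ioc 0 R, ∑ w ∈ mix G x P s, μ w ≤ (D : ℝ) := by
    have h2 := hsum R le_rfl
    have h3 := mul_nonneg hD0 (hM R)
    have h4 := mul_le_mul_of_nonneg_left hM0 hD0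
    linarith
  have h2 : ∑ s ∈ Finset.Ioc (R / 2) R, ∑ w ∈ mix G x P s, μ w ≤
      ∑ s ∈ Finset.Ioc 0 R, ∑ w ∈ mix G x P s, μ w := by
    apply Finset.sum_le_sum_of_subset_of_nonneg
    · intro s hs
      rw [Finset.mem_Ioc] at hs ⊢
      omega
    · intro s _ _
      exact Finset.sum_nonneg (fun w _ => h0 w)
  have h3 : ∑ s ∈ Finset.Ioc (R / 2) R, ((mix G x P s).card : ℝ) / ((bl G x s).card : ℝ) ≤
      ∑ s ∈ Finset.Ioc (R / 2) R, C * ∑ w ∈ mix G x P s, μ w := by
    apply Finset.sum_le_sum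
    intro s hs
    rw [Finset.mem_Ioc] at hs
    have hb : (0 : ℝ) < ((bl G x s).card : ℝ) := by exact_mod_cast bl_card_pos G x s
    rw [div_le_iff₀ hb, Finset.mul_sum, Finset.sum_mul, Finset.card_eq_sum_ones, Nat.cast_sum]
    apply Finset.sum_le_sum
    intro w hw
    have hw1 := (mem_mix.1 hw).1
    have h5 := hl w (by omega) (by omega)
    rw [hw1] at h5
    push_cast
    linarith [mul_right_comm C ((bl G x s).card : ℝ) (μ w)]
  rw [← Finset.mul_sum] at h3
  calc _ ≤ C * ∑ s ∈ Finset.Ioc (R / 2) R, ∑ w ∈ mix G x P s, μ w := h3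
    _ ≤ C * D := mul_le_mul_of_nonneg_left (h2.trans h1) hC.le

end Pool.Agent.Lib.RegSph
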