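import Pool.Agent.Lib.RegSph.Sums
import Pool.Agent.Lib.RegSph.Bdry
import Pool.Agent.Lib.RegSph.CoverA
import Pool.Agent.Lib.RegSph.CoverB

set_option autoImplicit false

namespace Pool.Agent.Lib.RegSph

open Finset Pool.Agent.Lib.MP_2f27c1_co

variable {V : Type*} [Fintype V]

theorem card_bl_le {G : SimpleGraph V} (hc : G.Connected) {D : ℕ} (hD : DegLe G D) (v : V) (i : ℕ) :
    ((bl G v i).card : ℝ) ≤ ((D : ℝ) + 1) ^ i := by
  classical
  induction i with
  | zero =>
    have h0 : bl G v 0 ⊆ {v} := by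
      intro w hw
      rw [mem_bl] at hw
      have h1 : G.dist v w = 0 := by omega
      rw [mem_singleton]
      exact ((hc.dist_eq_zero_iff).mp h1).symm
    have h1 := card_le_card h0
    rw [card_singleton] at h1
    rw [pow_zero]
    exact_mod_cast h1
  | succ i ih =>
    have h1 := bl_succ_le hD hc v i
    have h2 : ((bl G v (i + 1)).card : ℝ) ≤ ((D : ℝ) + 1) * ((bl G v i).card : ℝ) := by
      exact_mod_cast h1
    refine h2.trans ?_
    rw [pow_succ']
    have h3 : (0 : ℝ) ≤ (D : ℝ) + 1 := by positivity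
    exact mul_le_mul_of_nonneg_left ih h3

/-- The combination of the leak inequality and the boundary estimate. -/
theorem main {G : SimpleGraph V} (hc : G.Connected) {D : ℕ} (hD : DegLe G D) {h K C : ℝ}
    (hh : 0 < h) (hC : 0 < C) (hE : Expd G h) (R i : ℕ) (hi : 1 ≤ i)
    (h2i : 2 ≤ (1 + h) ^ i) (hiK : 2 * K ≤ (1 + h) ^ i) (hiR : 4 * i ≤ R)
    (v : V) (h2 : ∀ x ∈ bl G v i, 2 * (bl G x R).card ≤ Fintype.card V)
    (hK : ∀ x ∈ bl G v i, ∀ r, r ≤ R → ((bl G x r).card : ℝ) ≤ K * ((bl G v r).card : ℝ))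
    (hr : ∀ x ∈ bl G v i, Reg G x R C) :
    h * ((R : ℝ) / 4) ≤
      ((D : ℝ) + 1) ^ i * ((D + ((D : ℝ) + 1) ^ i) * ((1 + 1 / h) * (1 + C * D))) := by
  classical
  have hv : v ∈ bl G v i := self_mem_bl G v i
  set Q : ℝ := (1 + 1 / h) * (1 + C * D) with hQ
  have hD0 : (0 : ℝ) ≤ (D : ℝ) := Nat.cast_nonneg _
  have hDi : (0 : ℝ) ≤ ((D : ℝ) + 1) ^ i := by positivity
  let S : V → ℕ → Finset V := fun u r =>
    (bl G v r).filter (fun w => G.dist u w + i ≤ G.dist v w)
  have hS : ∀ u r w, w ∈ S u r ↔ w ∈ bl G v r ∧ G.dist u w + i ≤ G.dist v w := by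
    intro u r w
    simp [S]
  have key : ∀ u ∈ bl G v i, h * ∑ r ∈ Ioc (R / 2) R,
      ((S u r).card : ℝ) / ((bl G v r).card : ℝ) ≤ (D + ((D : ℝ) + 1) ^ i) * Q := by
    intro u hu
    have h1 := sum_mixb hc hD hh hE v R (h2 v hv) C hC (hr v hv)
      (fun w => ¬ G.dist u w + i ≤ G.dist v w) (by
        intro w z hz hw hz'
        rw [mem_pars] at hz
        apply hw
        have h3 := hc.dist_triangle (u := u) (v := z) (w := w)
        have h4 : G.dist z w = 1 := SimpleGraph.dist_eq_one_iff_adj.mpr hz.1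
        omega)
    have h3 := sum_mixb hc hD hh hE u R (h2 u hu) C hC (hr u hu)
      (fun w => G.dist u w + i ≤ G.dist v w) (by
        intro w z hz hw
        rw [mem_pars] at hz
        have h3 := hc.dist_triangle (u := v) (v := z) (w := w)
        have h4 : G.dist z w = 1 := SimpleGraph.dist_eq_one_iff_adj.mpr hz.1
        omega)
    have h4 : ∀ r ∈ Ioc (R / 2) R, h * (((S u r).card : ℝ) / ((bl G v r).card : ℝ)) ≤
        D * (((mixb G v (fun w => ¬ G.dist u w + i ≤ G.dist v w) r).card : ℝ) /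
          ((bl G v r).card : ℝ)) + ((D : ℝ) + 1) ^ i *
        (((mixb G u (fun w => G.dist u w + i ≤ G.dist v w) r).card : ℝ) /
          ((bl G u r).card : ℝ)) := by
      intro r hr'
      rw [mem_Ioc] at hr'
      have hb := bdry hc hD hE v u i r hi (S u r) (hS u r)
        (half hc hh hE R v u (h2 v hv) (hK u hu) i r hiK (by omega) hr'.2 (S u r) (hS u r))
      have hpv : (0 : ℝ) < ((bl G v r).card : ℝ) := by exact_mod_cast bl_card_pos G v r
      have hpu : (0 : ℝ) < ((bl G u r).card : ℝ) := by exact_mod_cast bl_card_pos G u r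
      have hcmp := compare hc hD v u i r (mem_bl.mp hu)
      have hm : (0 : ℝ) ≤ ((mixb G u (fun w => G.dist u w + i ≤ G.dist v w) r).card : ℝ) :=
        Nat.cast_nonneg _
      have h5 : ((mixb G u (fun w => G.dist u w + i ≤ G.dist v w) r).card : ℝ) /
          ((bl G v r).card : ℝ) ≤ ((D : ℝ) + 1) ^ i *
          (((mixb G u (fun w => G.dist u w + i ≤ G.dist v w) r).card : ℝ) /
            ((bl G u r).card : ℝ)) := by
        rw [← mul_div_assoc, div_le_div_iff₀ hpv hpu]
        have := mul_le_mul_of_nonneg_left hcmp hm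
        linarith
      have h6 : h * (((S u r).card : ℝ) / ((bl G v r).card : ℝ)) ≤
          (D * ((mixb G v (fun w => ¬ G.dist u w + i ≤ G.dist v w) r).card : ℝ) +
            ((mixb G u (fun w => G.dist u w + i ≤ G.dist v w) r).card : ℝ)) /
            ((bl G v r).card : ℝ) := by
        rw [← mul_div_assoc]
        exact (div_le_div_iff_of_pos_right hpv).mpr hb
      rw [add_div, mul_div_assoc] at h6
      linarith
    rw [mul_sum]
    refine (sum_le_sum h4).trans ?_
    rw [sum_add_distrib, ← mul_sum, ← mul_sum]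
    have h7 := mul_le_mul_of_nonneg_left h1 hD0
    have h8 := mul_le_mul_of_nonneg_left h3 hDi
    rw [add_mul]
    linarith
  have low : (R : ℝ) / 4 ≤ ∑ u ∈ bl G v i, ∑ r ∈ Ioc (R / 2) R,
      ((S u r).card : ℝ) / ((bl G v r).card : ℝ) := by
    rw [sum_comm]
    have h5 : ∀ r ∈ Ioc (R / 2) R, (1 / 2 : ℝ) ≤
        ∑ u ∈ bl G v i, ((S u r).card : ℝ) / ((bl G v r).card : ℝ) := by
      intro r hr'
      rw [mem_Ioc] at hr'
      have hpv : (0 : ℝ) < ((bl G v r).card : ℝ) := by exact_mod_cast bl_card_pos G v r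
      have hcov := cover hc hh hE v R (h2 v hv) i r hi h2i (by omega) hr'.2 (fun u => S u r)
        (fun u w => hS u r w)
      rw [← sum_div, le_div_iff₀ hpv]
      linarith
    refine le_trans ?_ (sum_le_sum h5)
    rw [sum_const, Nat.card_Ioc, nsmul_eq_mul]
    have h6 : R ≤ 2 * (R - R / 2) := by omega
    have h7 : (R : ℝ) ≤ 2 * ((R - R / 2 : ℕ) : ℝ) := by exact_mod_cast h6
    linarith
  calc h * ((R : ℝ) / 4) ≤ h * ∑ u ∈ bl G v i, ∑ r ∈ Ioc (R / 2) R,
        ((S u r).card : ℝ) / ((bl G v r).card : ℝ) := mul_le_mul_of_nonneg_left low hh.le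
    _ = ∑ u ∈ bl G v i, h * ∑ r ∈ Ioc (R / 2) R,
        ((S u r).card : ℝ) / ((bl G v r).card : ℝ) := by rw [mul_sum]
    _ ≤ ∑ u ∈ bl G v i, (D + ((D : ℝ) + 1) ^ i) * Q := sum_le_sum key
    _ = ((bl G v i).card : ℝ) * ((D + ((D : ℝ) + 1) ^ i) * Q) := by
        rw [sum_const, nsmul_eq_mul]
    _ ≤ ((D : ℝ) + 1) ^ i * ((D + ((D : ℝ) + 1) ^ i) * Q) := by
        refine mul_le_mul_of_nonneg_right (card_bl_le hc hD v i) ?_
        have : 0 ≤ Q := by rw [hQ]; positivity
        positivity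

end Pool.Agent.Lib.RegSph
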