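import Pool.Agent.Lib.RegSph.Leak

set_option autoImplicit false

namespace Pool.Agent.Lib.RegSph

open Finset Pool.Agent.Lib.MP_2f27c1_co

variable {V : Type*} [Fintype V]

private theorem mixb_succ {G : SimpleGraph V} (x : V) (P : V → Prop) (r : ℕ) :
    (mixb G x P (r + 1)).card ≤ (mixb G x P r).card + (mix G x P (r + 1)).card := by
  classical
  have h : mixb G x P (r + 1) ⊆ mixb G x P r ∪ mix G x P (r + 1) := by
    intro w hw
    rw [mem_mixb] at hw
    rw [mem_union, mem_mixb, mem_mix]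
    obtain ⟨h1, h2, h3⟩ := hw
    rcases Nat.lt_or_ge (G.dist x w) (r + 1) with h4 | h4
    · exact Or.inl ⟨by omega, h2, h3⟩
    · exact Or.inr ⟨by omega, h2, h3⟩
  exact (card_le_card h).trans (card_union_le _ _)

private theorem mixb_le {G : SimpleGraph V} (x : V) (P : V → Prop) (r : ℕ) :
    (mixb G x P r).card ≤ (bl G x r).card := by
  refine card_le_card fun w hw => ?_
  rw [mem_mixb] at hw
  rw [mem_bl]
  exact hw.1

private theorem rec_sum {h : ℝ} (X a : ℕ → ℝ) (m : ℕ) (n : ℕ) (hmn : m ≤ n)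
    (hX : ∀ r, m ≤ r → r < n → (1 + h) * X (r + 1) ≤ X r + (1 + h) * a (r + 1)) :
    h * ∑ r ∈ Finset.Ioc m n, X r + X n ≤ X m + (1 + h) * ∑ r ∈ Finset.Ioc m n, a r := by
  induction n, hmn using Nat.le_induction with
  | base => simp
  | succ n hmn ih =>
    have h1 := ih (fun r h2 h3 => hX r h2 (by omega))
    have h2 := hX n hmn (Nat.lt_succ_self n)
    rw [← Finset.insert_Ioc_right_eq_Ioc_add_one hmn, Finset.sum_insert (by simp),
      Finset.sum_insert (by simp)]
    nlinarith [h1, h2]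

/-- PROOF. `mixb r` is contained in `bl x (R/2)` together with the `mix s`, `R/2 < s ≤ r`. Balls grow:
`(1+h) * (bl x r).card ≤ (bl x (r+1)).card` for `r < R` (`bl_growth`), so `(bl x s).card / (bl x r).card
≤ (1+h)^(-(r-s))` for `s ≤ r ≤ R`. Hence the sum is at most
`∑_r (1+h)^(-(r - R/2)) + ∑_s (mix s).card / (bl x s).card * ∑_{r ≥ s} (1+h)^(-(r-s))
≤ (1 + 1/h) * (1 + C * D)` (geometric series `∑_{j≥0} (1+h)^(-j) = 1 + 1/h`; `leak`). -/
theorem sum_mixb {G : SimpleGraph V} (hc : G.Connected) {D : ℕ} (hD : DegLe G D) {h : ℝ}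
    (hh : 0 < h) (hE : Expd G h) (x : V) (R : ℕ) (h2 : 2 * (bl G x R).card ≤ Fintype.card V)
    (C : ℝ) (hC : 0 < C) (hr : Reg G x R C) (P : V → Prop)
    (hP : ∀ w, ∀ z ∈ pars G x w, P w → P z) :
    ∑ r ∈ Finset.Ioc (R / 2) R, ((mixb G x P r).card : ℝ) / ((bl G x r).card : ℝ) ≤
      (1 + 1 / h) * (1 + C * D) := by
  have hpos : ∀ r, (0 : ℝ) < ((bl G x r).card : ℝ) := fun r => by
    exact_mod_cast bl_card_pos G x r
  have hstep : ∀ r, R / 2 ≤ r → r < R →
      (1 + h) * (((mixb G x P (r + 1)).card : ℝ) / ((bl G x (r + 1)).card : ℝ)) ≤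
        ((mixb G x P r).card : ℝ) / ((bl G x r).card : ℝ) +
          (1 + h) * (((mix G x P (r + 1)).card : ℝ) / ((bl G x (r + 1)).card : ℝ)) := by
    intro r _ hrR
    have hg : (1 + h) * ((bl G x r).card : ℝ) ≤ ((bl G x (r + 1)).card : ℝ) := by
      refine bl_growth hE x r ?_ hc
      have := card_le_card (bl_mono G x (show r ≤ R by omega))
      omega
    have h3 : ((mixb G x P (r + 1)).card : ℝ) ≤
        ((mixb G x P r).card : ℝ) + ((mix G x P (r + 1)).card : ℝ) := by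
      exact_mod_cast mixb_succ x P r
    have h4 : (1 + h) * (((mixb G x P r).card : ℝ) / ((bl G x (r + 1)).card : ℝ)) ≤
        ((mixb G x P r).card : ℝ) / ((bl G x r).card : ℝ) := by
      rw [← mul_div_assoc, div_le_div_iff₀ (hpos _) (hpos _)]
      have h5 : (0 : ℝ) ≤ ((mixb G x P r).card : ℝ) := Nat.cast_nonneg _
      nlinarith [mul_le_mul_of_nonneg_left hg h5]
    have h6 : ((mixb G x P (r + 1)).card : ℝ) / ((bl G x (r + 1)).card : ℝ) ≤
        ((mixb G x P r).card : ℝ) / ((bl G x (r + 1)).card : ℝ) +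
          ((mix G x P (r + 1)).card : ℝ) / ((bl G x (r + 1)).card : ℝ) := by
      rw [← add_div]
      exact div_le_div_of_nonneg_right h3 (hpos _).le
    have h7 := mul_le_mul_of_nonneg_left h6 (show (0 : ℝ) ≤ 1 + h by linarith)
    rw [mul_add] at h7
    linarith
  have hmain := rec_sum (h := h)
    (fun r => ((mixb G x P r).card : ℝ) / ((bl G x r).card : ℝ))
    (fun r => ((mix G x P r).card : ℝ) / ((bl G x r).card : ℝ)) (R / 2) R
    (Nat.div_le_self R 2) hstep
  have hl := leak hc hD x R C hC hr P hP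
  have h8 : ((mixb G x P (R / 2)).card : ℝ) / ((bl G x (R / 2)).card : ℝ) ≤ 1 := by
    rw [div_le_one (hpos _)]
    exact_mod_cast mixb_le x P (R / 2)
  have h9 : (0 : ℝ) ≤ ((mixb G x P R).card : ℝ) / ((bl G x R).card : ℝ) := by positivity
  have hCD : 0 ≤ C * (D : ℝ) := by positivity
  have h10 : h * ∑ r ∈ Finset.Ioc (R / 2) R, ((mixb G x P r).card : ℝ) / ((bl G x r).card : ℝ) ≤
      (1 + h) * (1 + C * D) := by
    have h11 := mul_le_mul_of_nonneg_left hl (show (0 : ℝ) ≤ 1 + h by linarith)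
    nlinarith [hmain, h11, h8, h9]
  have h12 : (1 + 1 / h) * (1 + C * D) = (1 + h) * (1 + C * D) / h := by
    field_simp
    ring
  rw [h12, le_div_iff₀ hh, mul_comm]
  exact h10

end Pool.Agent.Lib.RegSph
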